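import Mathlib

set_option autoImplicit false

namespace Pool.Agent.Results.MP_1cfa3b_gt.TwoEnds

open Set Filter Topology
open scoped NNReal

universe u v

variable {X : Type u} [MetricSpace X]

/-- `b` is a consistent conical (ccc) geodesic bicombing on `X`: it is continuous on
`X × X × [0,1]`, each `b x y` is a constant speed geodesic from `x` to `y`, and it is consistent
and conical. -/
structure IsCCCBicombing (b : X → X → unitInterval → X) : Prop where
  continuous : Continuous fun p : X × X × unitInterval => b p.1 p.2.1 p.2.2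
  zero : ∀ x y, b x y 0 = x
  one : ∀ x y, b x y 1 = y
  speed : ∀ x y (s t : unitInterval), dist (b x y s) (b x y t) = |(s : ℝ) - t| * dist x y
  consistent : ∀ x y (s t : unitInterval), s < t →
    range (b (b x y s) (b x y t)) = b x y '' Icc s t
  conical : ∀ x y x' y' (t : unitInterval),
    dist (b x y t) (b x' y' t) ≤ (1 - (t : ℝ)) * dist x x' + t * dist y y'

/-- `ξ : [0,∞) → X` is a `b`-ray: a geodesic ray such that for every `s > 0` the restriction of
`ξ` to `[0,s]` is the reparametrised `b`-geodesic from `ξ 0` to `ξ s`. -/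
def IsRay (b : X → X → unitInterval → X) (ξ : ℝ≥0 → X) : Prop :=
  (∀ s t : ℝ≥0, dist (ξ s) (ξ t) = |(s : ℝ) - t|) ∧
    ∀ s : ℝ≥0, 0 < s → ∀ (t : unitInterval) (r : ℝ≥0), (r : ℝ) = t * s →
      ξ r = b (ξ 0) (ξ s) t

/-- Two rays are equivalent if they stay at bounded distance. -/
def rayEquiv (b : X → X → unitInterval → X) : Setoid {ξ : ℝ≥0 → X // IsRay b ξ} where
  r ξ η := ∃ D : ℝ, ∀ t : ℝ≥0, dist (ξ.1 t) (η.1 t) ≤ D
  iseqv :=
    { refl := fun ξ => ⟨0, fun t => by simp⟩
      symm := fun {ξ η} ⟨D, hD⟩ => ⟨D, fun t => by rw [dist_comm]; exact hD t⟩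
      trans := fun {ξ η ζ} ⟨D, hD⟩ ⟨E, hE⟩ =>
        ⟨D + E, fun t => (dist_triangle _ (η.1 t) _).trans (add_le_add (hD t) (hE t))⟩ }

/-- The boundary at infinity of `X` with respect to the bicombing `b`: the set of equivalence
classes of `b`-rays. -/
def Boundary (b : X → X → unitInterval → X) : Type u := Quotient (rayEquiv b)

/-- consistency in parametrised form -/
lemma param {b : X → X → unitInterval → X} (hb : IsCCCBicombing b) (x y : X)
    (w t r : unitInterval) (hr : (r : ℝ) = t * w) : b x (b x y w) t = b x y r := by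
  by_cases hxy : x = y
  · subst hxy
    have h1 : ∀ s, b x x s = x := by
      intro s
      have := hb.speed x x s 0
      rw [dist_self, mul_zero, hb.zero] at this
      exact dist_eq_zero.1 this
    rw [h1, h1, h1]
  · have hd : 0 < dist x y := dist_pos.2 hxy
    by_cases hw : w = 0
    · subst hw
      have hr0 : r = 0 := by
        apply Subtype.ext
        rw [hr]; simp
      subst hr0
      rw [hb.zero]
      have := hb.speed x x t 0
      rw [dist_self, mul_zero, hb.zero] at this
      exact dist_eq_zero.1 this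
    · have hw0 : (0 : unitInterval) < w := unitInterval.pos_iff_ne_zero.2 hw
      have h1 := hb.consistent x y 0 w hw0
      rw [hb.zero] at h1
      have h2 : b x (b x y w) t ∈ b x y '' Icc 0 w := by
        rw [← h1]; exact mem_range_self t
      obtain ⟨v, hv, hv2⟩ := h2
      have h3 : dist (b x y v) x = (v : ℝ) * dist x y := by
        have := hb.speed x y v 0
        rw [hb.zero] at this
        rw [this]
        simp [abs_of_nonneg v.2.1]
      have h4 : dist (b x (b x y w) t) x = (t : ℝ) * dist x (b x y w) := by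
        have := hb.speed x (b x y w) t 0
        rw [hb.zero] at this
        rw [this]
        simp [abs_of_nonneg t.2.1]
      have h5 : dist x (b x y w) = (w : ℝ) * dist x y := by
        have := hb.speed x y w 0
        rw [hb.zero] at this
        rw [dist_comm, this]
        simp [abs_of_nonneg w.2.1]
      rw [← hv2, h3, h5] at h4
      have h6 : (v : ℝ) = t * w := by
        have : (v : ℝ) * dist x y = (t * w) * dist x y := by rw [h4]; ring
        exact mul_right_cancel₀ hd.ne' this
      have h7 : v = r := Subtype.ext (by rw [h6, hr])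
      rw [← hv2, h7]

/-- Construction of a ray as a limit of `b`-geodesics from `x` to far away points. -/
lemma exists_ray [ProperSpace X] {b : X → X → unitInterval → X} (hb : IsCCCBicombing b)
    (U : Ultrafilter ℕ) (x : X) (y : ℕ → X)
    (hy : Tendsto (fun n => dist x (y n)) U atTop) :
    ∃ ξ : ℝ≥0 → X, IsRay b ξ ∧ ξ 0 = x ∧ ∀ t : ℝ≥0,
      Tendsto (fun n => b x (y n) (Set.projIcc (0 : ℝ) 1 zero_le_one ((t : ℝ) / dist x (y n)))) U
        (𝓝 (ξ t)) := by
  set p : ℝ≥0 → ℕ → X := fun t n =>
    b x (y n) (Set.projIcc (0 : ℝ) 1 zero_le_one ((t : ℝ) / dist x (y n))) with hp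
  have hproj : ∀ (t : ℝ≥0), ∀ᶠ n in (U : Filter ℕ), 0 < dist x (y n) ∧
      ((Set.projIcc (0 : ℝ) 1 zero_le_one ((t : ℝ) / dist x (y n)) : unitInterval) : ℝ)
        = (t : ℝ) / dist x (y n) := by
    intro t
    have h1 : ∀ᶠ n in (U : Filter ℕ), (t : ℝ) + 1 ≤ dist x (y n) :=
      hy.eventually (eventually_ge_atTop _)
    filter_upwards [h1] with n hn
    have h0 : 0 < dist x (y n) := by
      have := t.2
      linarith [show (0 : ℝ) ≤ t from t.2]
    refine ⟨h0, ?_⟩
    rw [Set.projIcc_of_mem zero_le_one ⟨by positivity, ?_⟩]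
    rw [div_le_one h0]
    linarith
  have hlim : ∀ t : ℝ≥0, ∃ q : X, Tendsto (p t) U (𝓝 q) := by
    intro t
    have hc : IsCompact (Metric.closedBall x (t : ℝ)) := isCompact_closedBall x t
    have hmem : ∀ᶠ n in (U : Filter ℕ), p t n ∈ Metric.closedBall x (t : ℝ) := by
      filter_upwards [hproj t] with n hn
      rw [Metric.mem_closedBall]
      have := hb.speed x (y n) (Set.projIcc (0 : ℝ) 1 zero_le_one ((t : ℝ) / dist x (y n))) 0
      rw [hb.zero] at this
      show dist (b x (y n) _) x ≤ t
      rw [this, hn.2]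
      simp only [Set.Icc.coe_zero, sub_zero]
      rw [abs_of_nonneg (div_nonneg (NNReal.coe_nonneg t) hn.1.le), div_mul_cancel₀ _ hn.1.ne']
    have hle : ((U.map (p t) : Ultrafilter X) : Filter X) ≤ 𝓟 (Metric.closedBall x (t : ℝ)) := by
      rw [le_principal_iff]
      exact hmem
    obtain ⟨q, -, hq⟩ := hc.ultrafilter_le_nhds (U.map (p t)) hle
    exact ⟨q, hq⟩
  choose ξ hξ using hlim
  have hξ0 : ξ 0 = x := by
    have h1 : Tendsto (p 0) U (𝓝 x) := by
      have : ∀ᶠ n in (U : Filter ℕ), p 0 n = x := by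
        filter_upwards [hproj 0] with n hn
        show b x (y n) _ = x
        have h2 : (Set.projIcc (0 : ℝ) 1 zero_le_one (((0 : ℝ≥0) : ℝ) / dist x (y n)) :
            unitInterval) = 0 := by
          apply Subtype.ext
          rw [hn.2]; simp
        rw [h2, hb.zero]
      exact tendsto_const_nhds.congr' (this.mono fun n hn => hn.symm)
    exact tendsto_nhds_unique (hξ 0) h1
  refine ⟨ξ, ⟨?_, ?_⟩, hξ0, hξ⟩
  · intro s t
    have h1 : Tendsto (fun n => dist (p s n) (p t n)) U (𝓝 (dist (ξ s) (ξ t))) :=
      (hξ s).dist (hξ t)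
    have h2 : Tendsto (fun n => dist (p s n) (p t n)) U (𝓝 |(s : ℝ) - t|) := by
      have : ∀ᶠ n in (U : Filter ℕ), dist (p s n) (p t n) = |(s : ℝ) - t| := by
        filter_upwards [hproj s, hproj t] with n hn hn'
        show dist (b x (y n) _) (b x (y n) _) = _
        rw [hb.speed, hn.2, hn'.2, ← sub_div, abs_div, abs_of_pos hn.1,
          div_mul_cancel₀ _ hn.1.ne']
      exact tendsto_const_nhds.congr' (this.mono fun n hn => hn.symm)
    exact tendsto_nhds_unique h1 h2
  · intro s hs t r hr
    rw [hξ0]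
    have h1 : Tendsto (p r) U (𝓝 (b x (ξ s) t)) := by
      have hcont : Continuous fun z : X => b x z t := by
        have : Continuous fun z : X => ((x, z, t) : X × X × unitInterval) := by fun_prop
        exact hb.continuous.comp this
      have h2 : Tendsto (fun n => b x (p s n) t) U (𝓝 (b x (ξ s) t)) :=
        (hcont.tendsto (ξ s)).comp (hξ s)
      refine h2.congr' ?_
      filter_upwards [hproj s, hproj r] with n hn hn'
      show b x (b x (y n) _) t = b x (y n) _
      apply param hb
      rw [hn.2, hn'.2, hr]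
      ring
    exact tendsto_nhds_unique (hξ r) h1

/-- Equivalent rays with the same origin coincide. -/
lemma ray_unique {b : X → X → unitInterval → X} (hb : IsCCCBicombing b) {ξ η : ℝ≥0 → X}
    (hξ : IsRay b ξ) (hη : IsRay b η) (h0 : ξ 0 = η 0) (D : ℝ)
    (hD : ∀ t : ℝ≥0, dist (ξ t) (η t) ≤ D) : ξ 1 = η 1 := by
  have key : ∀ n : ℕ, dist (ξ 1) (η 1) ≤ D / (n + 1) := by
    intro n
    have hpos : (0 : ℝ) < (n : ℝ) + 1 := by positivity
    have ht : ((n : ℝ) + 1)⁻¹ ∈ unitInterval := by
      constructor
      · positivity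
      · rw [inv_le_one₀ hpos]
        linarith [show (0 : ℝ) ≤ n from Nat.cast_nonneg n]
    have e1 := hξ.2 ((n : ℝ≥0) + 1) (by positivity) ⟨_, ht⟩ 1 (by
      push_cast
      field_simp)
    have e2 := hη.2 ((n : ℝ≥0) + 1) (by positivity) ⟨_, ht⟩ 1 (by
      push_cast
      field_simp)
    rw [e1, e2, ← h0]
    refine (hb.conical _ _ _ _ _).trans ?_
    rw [dist_self, mul_zero, zero_add]
    have := hD ((n : ℝ≥0) + 1)
    calc ((n : ℝ) + 1)⁻¹ * dist (ξ ((n : ℝ≥0) + 1)) (η ((n : ℝ≥0) + 1))
        ≤ ((n : ℝ) + 1)⁻¹ * D := by gcongr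
      _ = D / (n + 1) := by rw [div_eq_inv_mul]
  have hlim : Tendsto (fun n : ℕ => D / ((n : ℝ) + 1)) atTop (𝓝 0) := by
    have := (tendsto_const_div_atTop_nhds_zero_nat D).comp (tendsto_add_atTop_nat 1)
    refine this.congr fun n => ?_
    simp
  have h1 : dist (ξ 1) (η 1) ≤ 0 := ge_of_tendsto' hlim key
  exact dist_le_zero.1 h1

/-- In a space with a cocompact isometric action, some orbit representative of every point lies
in a fixed ball. -/
lemma exists_radius (G : Type v) [Group G] [MulAction G X] [IsIsometricSMul G X]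
    [CompactSpace (MulAction.orbitRel.Quotient G X)] (x₀ : X) :
    ∃ R : ℝ, ∀ x : X, ∃ g : G, dist (g • x) x₀ ≤ R := by
  let π : X → MulAction.orbitRel.Quotient G X := Quotient.mk''
  have hopen : IsOpenMap π := isOpenMap_quotient_mk'_mul
  have hcover : (univ : Set (MulAction.orbitRel.Quotient G X)) ⊆
      ⋃ n : ℕ, π '' Metric.ball x₀ n := by
    intro q _
    induction q using Quotient.inductionOn' with
    | h x =>
      obtain ⟨n, hn⟩ := exists_nat_gt (dist x x₀)
      exact mem_iUnion.2 ⟨n, x, hn, rfl⟩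
  obtain ⟨n, hn⟩ := isCompact_univ.elim_directed_cover (fun n : ℕ => π '' Metric.ball x₀ n)
    (fun n => hopen _ Metric.isOpen_ball) hcover (by
      intro i j
      refine ⟨max i j, image_mono (Metric.ball_subset_ball ?_),
        image_mono (Metric.ball_subset_ball ?_)⟩
      · exact_mod_cast le_max_left i j
      · exact_mod_cast le_max_right i j)
  refine ⟨n, fun x => ?_⟩
  obtain ⟨z, hz, hzx⟩ := hn (mem_univ (π x))
  have h1 : (MulAction.orbitRel G X) z x := Quotient.exact' hzx
  rw [MulAction.orbitRel_apply] at h1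
  obtain ⟨g, hg⟩ := h1
  refine ⟨g, ?_⟩
  have : g • x = z := hg
  rw [this]
  exact (Metric.mem_ball.1 hz).le

/-- Let `X` be a proper metric space with a consistent conical geodesic bicombing `b`, and suppose
that some group acts cocompactly on `X` by isometries. Then either `X` is compact and its boundary
`∂_b X` is empty, or `X` is noncompact and `∂_b X` has at least two points. In particular the
boundary never consists of exactly one point. -/
theorem result {X : Type u} [MetricSpace X] [ProperSpace X] (b : X → X → unitInterval → X)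
    (hb : IsCCCBicombing b) (G : Type v) [Group G] [MulAction G X] [IsIsometricSMul G X]
    [CompactSpace (MulAction.orbitRel.Quotient G X)] :
    (CompactSpace X ∧ IsEmpty (Boundary b)) ∨ (NoncompactSpace X ∧ Nontrivial (Boundary b)) := by
  by_cases hX : CompactSpace X
  · left
    refine ⟨hX, ⟨fun q => ?_⟩⟩
    induction q using Quotient.inductionOn' with
    | h ξ =>
      obtain ⟨C, hC⟩ := (isCompact_univ (X := X)).isBounded.subset_closedBall (ξ.1 0)
      have h1 : dist (ξ.1 (Real.toNNReal (|C| + 1))) (ξ.1 0) ≤ C := hC (mem_univ _)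
      rw [ξ.2.1] at h1
      rw [Real.coe_toNNReal _ (by positivity)] at h1
      simp only [NNReal.coe_zero, sub_zero] at h1
      rw [abs_of_nonneg (by positivity)] at h1
      linarith [le_abs_self C]
  · right
    have hX' : NoncompactSpace X := not_compactSpace_iff.1 hX
    refine ⟨hX', ?_⟩
    have hne : Nonempty X := by
      by_contra hempty
      rw [not_nonempty_iff] at hempty
      exact hX inferInstance
    obtain ⟨x₀⟩ := hne
    obtain ⟨R, hR⟩ := exists_radius G x₀
    have hfar : ∀ n : ℕ, ∃ y : X, 2 * (n : ℝ) ≤ dist x₀ y := by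
      intro n
      by_contra hcon
      push Not at hcon
      apply hX
      have : (univ : Set X) ⊆ Metric.closedBall x₀ (2 * n) := by
        intro y _
        rw [Metric.mem_closedBall, dist_comm]
        exact (hcon y).le
      exact ⟨(isCompact_closedBall x₀ (2 * (n : ℝ))).of_isClosed_subset isClosed_univ this⟩
    have key : ∀ n : ℕ, ∃ a m c : X, dist m x₀ ≤ R ∧ (n : ℝ) ≤ dist m a ∧ (n : ℝ) ≤ dist m c ∧
        dist a c = dist m a + dist m c := by
      intro n
      obtain ⟨y, hy⟩ := hfar n
      have hhalf : (1 / 2 : ℝ) ∈ unitInterval := by constructor <;> norm_num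
      set m' : X := b x₀ y ⟨1 / 2, hhalf⟩ with hm'
      obtain ⟨g, hg⟩ := hR m'
      have e1 : dist m' x₀ = 1 / 2 * dist x₀ y := by
        have := hb.speed x₀ y ⟨1 / 2, hhalf⟩ 0
        rw [hb.zero] at this
        rw [hm', this]
        norm_num
      have e2 : dist m' y = 1 / 2 * dist x₀ y := by
        have := hb.speed x₀ y ⟨1 / 2, hhalf⟩ 1
        rw [hb.one] at this
        rw [hm', this]
        norm_num
      refine ⟨g • x₀, g • m', g • y, hg, ?_, ?_, ?_⟩
      · rw [dist_smul, e1]; linarith
      · rw [dist_smul, e2]; linarith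
      · rw [dist_smul, dist_smul, dist_smul, e1, e2]; ring
    choose a m c hm ha hc hac using key
    let U : Ultrafilter ℕ := hyperfilter ℕ
    have hU : (U : Filter ℕ) ≤ atTop := by
      have := Nat.hyperfilter_le_atTop
      exact this
    have hmlim : ∃ x : X, Tendsto m U (𝓝 x) := by
      have hle : ((U.map m : Ultrafilter X) : Filter X) ≤ 𝓟 (Metric.closedBall x₀ R) := by
        rw [le_principal_iff]
        exact Filter.mem_map.2 (Filter.univ_mem' fun n => hm n)
      obtain ⟨q, -, hq⟩ := (isCompact_closedBall x₀ R).ultrafilter_le_nhds (U.map m) hle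
      exact ⟨q, hq⟩
    obtain ⟨x, hx⟩ := hmlim
    have hxm : Tendsto (fun n => dist x (m n)) U (𝓝 0) := by
      have := (tendsto_const_nhds (x := x)).dist hx
      rwa [dist_self] at this
    have far : ∀ y : ℕ → X, (∀ n : ℕ, (n : ℝ) ≤ dist (m n) (y n)) →
        Tendsto (fun n => dist x (y n)) U atTop := by
      intro y hy
      have h1 : Tendsto (fun n : ℕ => (n : ℝ) + (-dist x (m n))) U atTop :=
        (tendsto_natCast_atTop_atTop.mono_left hU).atTop_add hxm.neg
      refine tendsto_atTop_mono (fun n => ?_) h1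
      have h2 := dist_triangle (m n) x (y n)
      rw [dist_comm (m n) x] at h2
      linarith [hy n]
    obtain ⟨ξ, hξ, hξ0, hξlim⟩ := exists_ray hb U x a (far a ha)
    obtain ⟨η, hη, hη0, hηlim⟩ := exists_ray hb U x c (far c hc)
    refine ⟨⟨Quotient.mk'' ⟨ξ, hξ⟩, Quotient.mk'' ⟨η, hη⟩, fun heq => ?_⟩⟩
    obtain ⟨D, hD⟩ : ∃ D : ℝ, ∀ t : ℝ≥0, dist (ξ t) (η t) ≤ D := Quotient.exact' heq
    have h1 : ξ 1 = η 1 := ray_unique hb hξ hη (hξ0.trans hη0.symm) D hD
    have hpq := (hξlim 1).dist (hηlim 1)
    rw [h1, dist_self] at hpq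
    have hsum := hpq.add (hxm.const_mul 2)
    rw [mul_zero, add_zero] at hsum
    have hev : ∀ᶠ n in (U : Filter ℕ), (2 : ℝ) ≤
        dist (b x (a n) (Set.projIcc (0 : ℝ) 1 zero_le_one (((1 : ℝ≥0) : ℝ) / dist x (a n))))
          (b x (c n) (Set.projIcc (0 : ℝ) 1 zero_le_one (((1 : ℝ≥0) : ℝ) / dist x (c n)))) +
        2 * dist x (m n) := by
      filter_upwards [(far a ha).eventually (eventually_ge_atTop 1),
        (far c hc).eventually (eventually_ge_atTop 1)] with n hn1 hn2
      have aux : ∀ y : X, 1 ≤ dist x y →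
          dist (b x y (Set.projIcc (0 : ℝ) 1 zero_le_one (((1 : ℝ≥0) : ℝ) / dist x y))) y
            = dist x y - 1 := by
        intro y hy
        have hpos : 0 < dist x y := by linarith
        have hmem : ((1 : ℝ≥0) : ℝ) / dist x y ∈ Icc (0 : ℝ) 1 := by
          constructor
          · positivity
          · rw [div_le_one hpos]; simpa using hy
        rw [Set.projIcc_of_mem zero_le_one hmem]
        have := hb.speed x y ⟨_, hmem⟩ 1
        rw [hb.one] at this
        rw [this]
        simp only [NNReal.coe_one, Set.Icc.coe_one]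
        rw [abs_sub_comm, abs_of_nonneg (by
          rw [sub_nonneg, div_le_one hpos]; exact hy)]
        field_simp
      have t1 := dist_triangle4 (a n)
        (b x (a n) (Set.projIcc (0 : ℝ) 1 zero_le_one (((1 : ℝ≥0) : ℝ) / dist x (a n))))
        (b x (c n) (Set.projIcc (0 : ℝ) 1 zero_le_one (((1 : ℝ≥0) : ℝ) / dist x (c n)))) (c n)
      rw [dist_comm (a n) (b x (a n) _), aux _ hn1, aux _ hn2] at t1
      have t2 := dist_triangle x (m n) (a n)
      have t3 := dist_triangle x (m n) (c n)
      have t4 := hac n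
      linarith
    have hfin : (2 : ℝ) ≤ 0 := ge_of_tendsto hsum hev
    norm_num at hfin

end Pool.Agent.Results.MP_1cfa3b_gt.TwoEnds
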